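import Pool.Agent.H32.PZ.KS

/-! Module KU, first part: the sum over k at a fixed frequency, with the dependence on r. -/

set_option autoImplicit false

open Finset

namespace Pool.Agent.H32.RU

open Pool.Agent.H28.MZ
open Pool.Agent.H32.PZ
open Pool.Agent.H23.GLH (PrimChar)

/-- one residue class -/
lemma coreU (hVS : T_VS) (q₂ q : ℕ) (hq₂ : 1 ≤ q₂) (hq : 1 ≤ q) :
    ∃ C : ℝ, 0 < C ∧ ∀ (r : ℝ), 1 < r → r < 3 / 2 → ∀ (T D K τ v : ℝ), 1 ≤ T → 0 < D → 0 < K → D * K ^ r = T / q →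
      |τ| ≤ r * (r - 1) / 8 * T → |v| ≤ 1 / 10 → ∀ (b : ℕ) (J : Finset ℕ),
      (∀ x ∈ J, ∀ z ∈ J, ∀ y, x ≤ y → y ≤ z → y ∈ J) →
      (∀ j ∈ J, 1 ≤ b + q₂ * j ∧ T / (4 * Real.pi) ≤ D * ((b + q₂ * j : ℕ) : ℝ) ^ r ∧
        D * ((b + q₂ * j : ℕ) : ℝ) ^ r ≤ 2 * T / Real.pi) →
      ‖∑ j ∈ J, ei (τ * Real.log ((b + q₂ * j : ℕ) : ℝ) +
        2 * Real.pi * (D * ((b + q₂ * j : ℕ) : ℝ) ^ r) * Real.exp v)‖ ≤
        C / Real.sqrt (r - 1) * (Real.sqrt T + K / Real.sqrt T) := by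
  have hpi := Real.pi_gt_three
  have hpi4 := Real.pi_lt_d2
  have hq' : (1 : ℝ) ≤ q := by exact_mod_cast hq
  have hq₂' : (1 : ℝ) ≤ q₂ := by exact_mod_cast hq₂
  set α : ℝ := (8 * Real.pi * q) ^ 2 * 20 with hα
  have hα1 : 1 ≤ α := by
    have h1 : 1 ≤ 8 * Real.pi * q := by nlinarith
    have h2 : 1 ≤ (8 * Real.pi * q) ^ 2 := one_le_pow₀ h1
    linarith
  obtain ⟨C, hC, hvs⟩ := hVS α hα1
  refine ⟨C * ((1 + q₂) + (2 * q / q₂) * 5), by positivity, ?_⟩
  intro r hr hr2 T D K τ v hT hD0 hK hD hτ hv b J hconv hJ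
  set ρ := r * (r - 1) with hρ
  have hr1 : 0 < r - 1 := by linarith
  have hρ0 : 0 < ρ := mul_pos (by linarith) hr1
  set s₀ := Real.sqrt (ρ / 20) with hs₀
  have hs₀0 : 0 < s₀ := Real.sqrt_pos.mpr (by positivity)
  have hsr : 0 < Real.sqrt (r - 1) := Real.sqrt_pos.mpr hr1
  have hsr1 : Real.sqrt (r - 1) ≤ 1 := by
    rw [Real.sqrt_le_one]
    linarith
  have hs₀1 : s₀ ≤ 1 := by
    rw [hs₀, Real.sqrt_le_one, hρ]
    nlinarith
  have hs₀2 : s₀ ≤ 1 / Real.sqrt (r - 1) := by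
    rw [le_div_iff₀ hsr]
    calc s₀ * Real.sqrt (r - 1) ≤ 1 * 1 := mul_le_mul hs₀1 hsr1 hsr.le (by norm_num)
      _ = 1 := one_mul 1
  have hs₀3 : 1 / s₀ ≤ 5 / Real.sqrt (r - 1) := by
    rw [div_le_div_iff₀ hs₀0 hsr, one_mul]
    apply Real.sqrt_le_iff.mpr
    refine ⟨by positivity, ?_⟩
    rw [mul_pow, hs₀, Real.sq_sqrt (by positivity), hρ]
    nlinarith
  have hT0 : 0 < T := by linarith
  have hsT : 0 < Real.sqrt T := Real.sqrt_pos.mpr hT0
  rcases J.eq_empty_or_nonempty with rfl | hne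
  · simp only [sum_empty, norm_zero]
    positivity
  set A := J.min' hne with hA
  set B := J.max' hne with hB
  have hAJ : A ∈ J := J.min'_mem hne
  have hBJ : B ∈ J := J.max'_mem hne
  have hAB : A ≤ B := J.min'_le _ hBJ
  have hJeq : J = Icc A B := by
    ext x
    rw [mem_Icc]
    constructor
    · intro hx
      exact ⟨J.min'_le _ hx, J.le_max' _ hx⟩
    · rintro ⟨h1, h2⟩
      exact hconv A hAJ B hBJ x h1 h2
  have hAp := hJ A hAJ
  have hBp := hJ B hBJ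
  -- location for real points
  have hreal : ∀ x : ℝ, (A : ℝ) ≤ x → x ≤ B → 1 ≤ (b : ℝ) + q₂ * x ∧
      T / (4 * Real.pi) ≤ D * ((b : ℝ) + q₂ * x) ^ r ∧
      D * ((b : ℝ) + q₂ * x) ^ r ≤ 2 * T / Real.pi := by
    intro x hx1 hx2
    have h1 : (1 : ℝ) ≤ (b : ℝ) + q₂ * A := by exact_mod_cast hAp.1
    have h2 : (b : ℝ) + q₂ * A ≤ b + q₂ * x := by gcongr
    have h3 : (b : ℝ) + q₂ * x ≤ b + q₂ * B := by gcongr
    have h4 := hAp.2.1
    have h5 := hBp.2.2
    push_cast at h4 h5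
    have h6 : 0 ≤ (b : ℝ) + q₂ * A := by linarith
    have h7 : 0 ≤ (b : ℝ) + q₂ * x := by linarith
    refine ⟨h1.trans h2, h4.trans ?_, le_trans ?_ h5⟩
    · exact mul_le_mul_of_nonneg_left (Real.rpow_le_rpow h6 h2 (by linarith)) hD0.le
    · exact mul_le_mul_of_nonneg_left (Real.rpow_le_rpow h7 h3 (by linarith)) hD0.le
  have hloc : ∀ x : ℝ, (A : ℝ) ≤ x → x ≤ B → K / (4 * Real.pi) ≤ (b : ℝ) + q₂ * x ∧
      (b : ℝ) + q₂ * x ≤ 2 * q * K := by
    intro x hx1 hx2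
    have h1 := hreal x hx1 hx2
    exact loc hq hr hT hK hD (by linarith [h1.1]) h1.2.1 h1.2.2
  -- the phase
  set f : ℝ → ℝ := fun x => (τ * Real.log ((b : ℝ) + q₂ * x) +
    2 * Real.pi * (D * ((b : ℝ) + q₂ * x) ^ r) * Real.exp v) / (2 * Real.pi) with hf
  set f' : ℝ → ℝ := fun x => (τ * (q₂ / ((b : ℝ) + q₂ * x)) +
    2 * Real.pi * (D * (q₂ * r * ((b : ℝ) + q₂ * x) ^ (r - 1))) * Real.exp v) / (2 * Real.pi)
    with hf'
  set f'' : ℝ → ℝ := fun x => (τ * (-(q₂ * q₂) / ((b : ℝ) + q₂ * x) ^ 2) +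
    2 * Real.pi * (D * (q₂ * r * (q₂ * (r - 1) * ((b : ℝ) + q₂ * x) ^ (r - 1 - 1)))) *
      Real.exp v) / (2 * Real.pi) with hf''
  set lam : ℝ := (q₂ / (2 * q * K)) ^ 2 * (ρ * T / 20) with hlam
  have hlam0 : 0 < lam := by positivity
  have hlin : ∀ x : ℝ, HasDerivAt (fun x : ℝ => (b : ℝ) + q₂ * x) q₂ x := by
    intro x
    have h1 := ((hasDerivAt_id x).const_mul (q₂ : ℝ)).const_add (b : ℝ)
    simpa using h1
  have hderiv1 : ∀ x ∈ Set.Icc (((A : ℕ) : ℤ) : ℝ) (((B : ℕ) : ℤ) : ℝ),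
      HasDerivAt f (f' x) x := by
    intro x hx
    rw [Int.cast_natCast, Int.cast_natCast] at hx
    have h1 := (hreal x hx.1 hx.2).1
    have hne : (b : ℝ) + q₂ * x ≠ 0 := by linarith
    have h2 := (hlin x).log hne
    have h3 := (hlin x).rpow_const (p := r) (Or.inl hne)
    have h4 := ((h2.const_mul τ).add (((h3.const_mul D).const_mul (2 * Real.pi)).mul_const
      (Real.exp v))).div_const (2 * Real.pi)
    exact h4
  have hderiv2 : ∀ x ∈ Set.Icc (((A : ℕ) : ℤ) : ℝ) (((B : ℕ) : ℤ) : ℝ),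
      HasDerivAt f' (f'' x) x := by
    intro x hx
    rw [Int.cast_natCast, Int.cast_natCast] at hx
    have h1 := (hreal x hx.1 hx.2).1
    have hne : (b : ℝ) + q₂ * x ≠ 0 := by linarith
    have h2 := (hasDerivAt_const x (q₂ : ℝ)).div (hlin x) hne
    have h3 := (hlin x).rpow_const (p := r - 1) (Or.inl hne)
    have h4 := ((h2.const_mul τ).add ((((h3.const_mul (q₂ * r : ℝ)).const_mul D).const_mul
      (2 * Real.pi)).mul_const (Real.exp v))).div_const (2 * Real.pi)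
    refine h4.congr_deriv ?_
    simp only [hf'']
    ring
  have hbd : ∀ x ∈ Set.Icc (((A : ℕ) : ℤ) : ℝ) (((B : ℕ) : ℤ) : ℝ),
      lam ≤ f'' x ∧ f'' x ≤ α * lam := by
    intro x hx
    rw [Int.cast_natCast, Int.cast_natCast] at hx
    obtain ⟨h1, h2, h3⟩ := hreal x hx.1 hx.2
    obtain ⟨h4, h5⟩ := hloc x hx.1 hx.2
    set y : ℝ := (b : ℝ) + q₂ * x with hy
    have hy0 : 0 < y := by linarith
    have e1 : y ^ (r - 1 - 1) = y ^ r / y ^ 2 := by
      rw [show r - 1 - 1 = r - 2 by ring, Real.rpow_sub hy0]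
      norm_num
    have e2 : f'' x = (q₂ / y) ^ 2 * (ρ * (D * y ^ r) * Real.exp v - τ / (2 * Real.pi)) := by
      simp only [hf'']
      rw [← hy, e1, hρ]
      field_simp
      ring
    obtain ⟨hv1, hv2⟩ := exp_bd hv
    have hτ' := abs_le.mp hτ
    have hlow : ρ * T / 20 ≤ ρ * (D * y ^ r) * Real.exp v - τ / (2 * Real.pi) := by
      have h6 : ρ * (T / (4 * Real.pi)) * (9 / 10) ≤ ρ * (D * y ^ r) * Real.exp v := by gcongr
      have h7 : τ / (2 * Real.pi) ≤ ρ / 8 * T / (2 * Real.pi) := by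
        gcongr
        exact hτ'.2
      have h8 : ρ * T / 20 ≤ ρ * (T / (4 * Real.pi)) * (9 / 10) - ρ / 8 * T / (2 * Real.pi) := by
        have e3 : ρ * (T / (4 * Real.pi)) * (9 / 10) - ρ / 8 * T / (2 * Real.pi) =
            ρ * T * (26 / 160 / Real.pi) := by
          field_simp
          ring
        have e4 : (1 : ℝ) / 20 ≤ 26 / 160 / Real.pi := by
          rw [le_div_iff₀ (by linarith)]
          linarith
        rw [e3]
        calc ρ * T / 20 = ρ * T * (1 / 20) := by ring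
          _ ≤ _ := by gcongr
      linarith
    have hupp : ρ * (D * y ^ r) * Real.exp v - τ / (2 * Real.pi) ≤ ρ * T := by
      have h6 : ρ * (D * y ^ r) * Real.exp v ≤ ρ * (2 * T / Real.pi) * (12 / 10) := by
        gcongr
      have h7 : -(ρ / 8 * T) / (2 * Real.pi) ≤ τ / (2 * Real.pi) := by
        gcongr
        exact hτ'.1
      have h8 : ρ * (2 * T / Real.pi) * (12 / 10) - -(ρ / 8 * T) / (2 * Real.pi) ≤ ρ * T := by
        have e3 : ρ * (2 * T / Real.pi) * (12 / 10) - -(ρ / 8 * T) / (2 * Real.pi) =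
            ρ * T * ((24 / 10 + 1 / 16) / Real.pi) := by
          field_simp
          ring
        have e4 : (24 / 10 + 1 / 16) / Real.pi ≤ 1 := by
          rw [div_le_one (by linarith)]
          linarith
        rw [e3]
        calc _ ≤ ρ * T * 1 := by gcongr
          _ = _ := by ring
      linarith
    have hq1 : (q₂ / (2 * q * K)) ^ 2 ≤ ((q₂ : ℝ) / y) ^ 2 := by gcongr
    have hq2 : ((q₂ : ℝ) / y) ^ 2 ≤ (q₂ / (K / (4 * Real.pi))) ^ 2 := by gcongr
    rw [e2]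
    constructor
    · rw [hlam]
      have : 0 ≤ ρ * T / 20 := by positivity
      gcongr
    · have h9 : 0 ≤ ρ * T / 20 := by positivity
      calc _ ≤ (q₂ / (K / (4 * Real.pi))) ^ 2 * (ρ * T) := by
            apply mul_le_mul hq2 hupp (by linarith) (by positivity)
        _ = α * lam := by
            rw [hα, hlam]
            field_simp
            ring
  have hmain := hvs (A : ℤ) (B : ℤ) f f' f'' lam hlam0 (by exact_mod_cast hAB) hderiv1 hderiv2 hbd
  have hsum : ∑ j ∈ J, ei (τ * Real.log ((b + q₂ * j : ℕ) : ℝ) +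
        2 * Real.pi * (D * ((b + q₂ * j : ℕ) : ℝ) ^ r) * Real.exp v) =
      ∑ n ∈ Icc ((A : ℕ) : ℤ) (B : ℤ), ei (2 * Real.pi * f n) := by
    have e0 : Icc ((A : ℕ) : ℤ) (B : ℤ) = (Icc A B).image (fun n : ℕ => (n : ℤ)) := by
      ext x
      simp only [mem_Icc, mem_image]
      constructor
      · rintro ⟨h1, h2⟩
        exact ⟨x.toNat, by omega, by omega⟩
      · rintro ⟨n, h1, rfl⟩
        constructor <;> omega
    rw [hJeq, e0, sum_image (by intro a _ c _ h; simpa using h)]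
    refine sum_congr rfl fun j _ => ?_
    congr 1
    simp only [hf]
    push_cast
    field_simp
  rw [hsum]
  refine hmain.trans ?_
  have hsl : Real.sqrt lam = q₂ / (2 * q * K) * (s₀ * Real.sqrt T) := by
    rw [hlam, Real.sqrt_mul (by positivity), Real.sqrt_sq (by positivity)]
    congr 1
    rw [hs₀, ← Real.sqrt_mul (by positivity)]
    congr 1
    ring
  rw [hsl]
  have hBloc := (hloc B (by exact_mod_cast hAB) le_rfl).2
  have hb1 := (hreal B (by exact_mod_cast hAB) le_rfl).1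
  have hlen : ((B : ℤ) : ℝ) - ((A : ℤ) : ℝ) + 1 ≤ 2 * q * K / q₂ + 1 := by
    rw [Int.cast_natCast, Int.cast_natCast]
    have h1 : (B : ℝ) ≤ 2 * q * K / q₂ := by
      rw [le_div_iff₀ (by linarith)]
      have : (0 : ℝ) ≤ b := Nat.cast_nonneg b
      linarith
    have h2 : (0 : ℝ) ≤ A := Nat.cast_nonneg A
    linarith
  have hKge : 1 ≤ 2 * q * K := hb1.trans hBloc
  have hfin1 : (((B : ℤ) : ℝ) - ((A : ℤ) : ℝ) + 1) * (q₂ / (2 * q * K) * (s₀ * Real.sqrt T)) ≤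
      (1 + q₂) * s₀ * Real.sqrt T := by
    calc _ ≤ (2 * q * K / q₂ + 1) * (q₂ / (2 * q * K) * (s₀ * Real.sqrt T)) := by gcongr
      _ = (1 + q₂ / (2 * q * K)) * (s₀ * Real.sqrt T) := by
          field_simp
      _ ≤ (1 + q₂) * (s₀ * Real.sqrt T) := by
          gcongr
          exact div_le_self (by linarith) hKge
      _ = _ := by ring
  have hfin2 : 1 / (q₂ / (2 * q * K) * (s₀ * Real.sqrt T)) =
      (2 * q / q₂) / s₀ * (K / Real.sqrt T) := by
    field_simp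
  rw [hfin2]
  have e10 : C * ((1 + q₂) + (2 * q / q₂) * 5) / Real.sqrt (r - 1) *
      (Real.sqrt T + K / Real.sqrt T) = C * (((1 + q₂) + (2 * q / q₂) * 5) / Real.sqrt (r - 1) *
      (Real.sqrt T + K / Real.sqrt T)) := by ring
  rw [e10]
  gcongr C * ?_
  have hp1 : 0 ≤ (1 + (q₂ : ℝ)) * s₀ := by positivity
  have hp2 : 0 ≤ (2 * (q : ℝ) / q₂) / s₀ := by positivity
  have hp3 : 0 ≤ K / Real.sqrt T := by positivity
  calc _ ≤ (1 + q₂) * s₀ * Real.sqrt T + (2 * q / q₂) / s₀ * (K / Real.sqrt T) := by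
        gcongr
    _ ≤ ((1 + q₂) * s₀ + (2 * q / q₂) / s₀) * (Real.sqrt T + K / Real.sqrt T) := by
        nlinarith [mul_nonneg hp1 hp3, mul_nonneg hp2 hsT.le]
    _ ≤ ((1 + q₂) * (1 / Real.sqrt (r - 1)) + (2 * q / q₂) * (5 / Real.sqrt (r - 1))) *
          (Real.sqrt T + K / Real.sqrt T) := by
        have e9 : (2 * q / q₂ : ℝ) / s₀ = (2 * q / q₂) * (1 / s₀) := by ring
        rw [e9]
        gcongr
    _ = _ := by ring


/-- all residue classes -/
lemma classesU (hVS : T_VS) (ψ : PrimChar) (q : ℕ) (hq : 1 ≤ q) :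
    ∃ C : ℝ, 0 < C ∧ ∀ (r : ℝ), 1 < r → r < 3 / 2 → ∀ (T D K τ v : ℝ), 1 ≤ T → 0 < D → 0 < K → D * K ^ r = T / q →
      |τ| ≤ r * (r - 1) / 8 * T → |v| ≤ 1 / 10 → ∀ (S : Finset ℕ),
      (∀ x ∈ S, ∀ z ∈ S, ∀ y, x ≤ y → y ≤ z → y ∈ S) →
      (∀ k ∈ S, 1 ≤ k ∧ T / (4 * Real.pi) ≤ D * (k : ℝ) ^ r ∧
        D * (k : ℝ) ^ r ≤ 2 * T / Real.pi) →
      ‖∑ k ∈ S, (starRingEnd ℂ) (co ψ k) * ei (τ * Real.log k +
        2 * Real.pi * (D * (k : ℝ) ^ r) * Real.exp v)‖ ≤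
        C / Real.sqrt (r - 1) * (Real.sqrt T + K / Real.sqrt T) := by
  have := ψ.q_ne
  have hq2pos : 1 ≤ ψ.q := Nat.one_le_iff_ne_zero.mpr (NeZero.ne ψ.q)
  obtain ⟨C, hC, hcore⟩ := coreU hVS ψ.q q hq2pos hq
  have hq' : (1 : ℝ) ≤ ψ.q := by exact_mod_cast hq2pos
  refine ⟨ψ.q * C, by positivity, ?_⟩
  intro r hr hr2 T D K τ v hT hD0 hK hD hτ hv S hconv hS
  set G : ℕ → ℂ := fun k => ei (τ * Real.log k + 2 * Real.pi * (D * (k : ℝ) ^ r) * Real.exp v)
    with hG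
  have hsplit : ∑ k ∈ S, (starRingEnd ℂ) (co ψ k) * G k =
      ∑ b ∈ range ψ.q, ∑ k ∈ S.filter (fun k => k % ψ.q = b),
        (starRingEnd ℂ) (co ψ k) * G k := by
    symm
    apply sum_fiberwise_of_maps_to
    intro k _
    exact mem_range.mpr (Nat.mod_lt _ hq2pos)
  have hclass : ∀ b ∈ range ψ.q, ‖∑ k ∈ S.filter (fun k => k % ψ.q = b),
        (starRingEnd ℂ) (co ψ k) * G k‖ ≤ C / Real.sqrt (r - 1) * (Real.sqrt T + K / Real.sqrt T) := by
    intro b hb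
    have hb' := mem_range.mp hb
    set J : Finset ℕ := (S.filter (fun k => k % ψ.q = b)).image (fun k => k / ψ.q) with hJ
    have hmemJ : ∀ j, j ∈ J ↔ b + ψ.q * j ∈ S := by
      intro j
      rw [hJ, mem_image]
      constructor
      · rintro ⟨k, hk, rfl⟩
        rw [mem_filter] at hk
        have := Nat.mod_add_div k ψ.q
        rw [hk.2] at this
        rw [this]
        exact hk.1
      · intro h
        refine ⟨b + ψ.q * j, ?_, ?_⟩
        · rw [mem_filter]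
          refine ⟨h, ?_⟩
          rw [Nat.add_mul_mod_self_left, Nat.mod_eq_of_lt hb']
        · rw [Nat.add_mul_div_left _ _ hq2pos, Nat.div_eq_of_lt hb', zero_add]
    have e1 : ∑ k ∈ S.filter (fun k => k % ψ.q = b), (starRingEnd ℂ) (co ψ k) * G k =
        (starRingEnd ℂ) (ψ.χ (b : ZMod ψ.q)) * ∑ j ∈ J, G (b + ψ.q * j) := by
      rw [hJ, sum_image, mul_sum]
      · refine sum_congr rfl fun k hk => ?_
        rw [mem_filter] at hk
        have h1 := Nat.mod_add_div k ψ.q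
        rw [hk.2] at h1
        rw [h1]
        congr 2
        unfold co
        rw [if_neg (by have := (hS k hk.1).1; omega)]
        have h2 : ((k : ℕ) : ZMod ψ.q) = (b : ZMod ψ.q) := by
          rw [← h1]
          push_cast
          simp
        rw [h2]
      · intro x hx y hy hxy
        have hx' := (mem_filter.mp (mem_coe.mp hx)).2
        have hy' := (mem_filter.mp (mem_coe.mp hy)).2
        simp only at hxy
        rw [← Nat.mod_add_div x ψ.q, ← Nat.mod_add_div y ψ.q, hx', hy', hxy]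
    rw [e1, norm_mul, RCLike.norm_conj]
    have h1 : ‖ψ.χ (b : ZMod ψ.q)‖ ≤ 1 := ψ.χ.norm_le_one _
    have h2 := hcore r hr hr2 T D K τ v hT hD0 hK hD hτ hv b J
      (by
        intro x hx z hz y hxy hyz
        rw [hmemJ] at hx hz ⊢
        apply hconv _ hx _ hz
        · gcongr
        · gcongr)
      (by
        intro j hj
        rw [hmemJ] at hj
        exact hS _ hj)
    calc _ ≤ 1 * ‖∑ j ∈ J, G (b + ψ.q * j)‖ := by gcongr
      _ = ‖∑ j ∈ J, G (b + ψ.q * j)‖ := one_mul _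
      _ ≤ _ := h2
  rw [hsplit]
  calc _ ≤ ∑ b ∈ range ψ.q, ‖∑ k ∈ S.filter (fun k => k % ψ.q = b),
        (starRingEnd ℂ) (co ψ k) * G k‖ := norm_sum_le _ _
    _ ≤ ∑ b ∈ range ψ.q, C / Real.sqrt (r - 1) * (Real.sqrt T + K / Real.sqrt T) := sum_le_sum hclass
    _ = _ := by
      rw [sum_const, card_range, nsmul_eq_mul]
      ring

end Pool.Agent.H32.RU
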