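import Pool.Agent.H47.RU.Targets
import Pool.Agent.H32.RU.KU1

/-! Module KU: the sum over k at a fixed frequency, with the dependence on r. -/

set_option autoImplicit false

open Finset

namespace Pool.Agent.H32.RU

open Pool.Agent.H28.MZ
open Pool.Agent.H32.PZ
open Pool.Agent.H23.GLH (PrimChar)

/-- (KU) -/
theorem pf_KU (hVS : T_VS) (hVV : T_VV) : Pool.Agent.H47.RU.T_KU := by
  intro q ψ hq
  obtain ⟨C, hC, hcl⟩ := classesU hVS ψ q hq
  have hpi := Real.pi_gt_three
  have hq' : (1 : ℝ) ≤ q := by exact_mod_cast hq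
  refine ⟨4 * ((2 * q) * (4 * Real.pi) * C), by positivity, ?_⟩
  intro T u r η M Z v h l μ hT hu1 hu2 hr hr2 hη0 hη hM hZ hh hl hμ hv
  have hr1 : 0 < r - 1 := by linarith
  have hsr : 0 < Real.sqrt (r - 1) := Real.sqrt_pos.mpr hr1
  have hT0 : 0 < T := by linarith
  have hh' : (1 : ℝ) ≤ h := by exact_mod_cast hh
  have hl' : (1 : ℝ) ≤ l := by exact_mod_cast hl
  have hμ' : (1 : ℝ) ≤ μ := by exact_mod_cast hμ
  have hex : ∃ B : ℕ, ∀ k : ℕ, μ * (((k : ℝ) * l) ^ r / h) / q ≤ u / Real.pi → k ≤ B := by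
    refine ⟨⌈u / Real.pi * q * h⌉₊, fun k hk => ?_⟩
    rcases Nat.eq_zero_or_pos k with rfl | hk0
    · exact Nat.zero_le _
    have hk1 : (1 : ℝ) ≤ k := by exact_mod_cast hk0
    have h1 : (k : ℝ) ≤ ((k : ℝ) * l) ^ r := by
      have h2 : 1 ≤ (k : ℝ) * l := by nlinarith
      calc (k : ℝ) ≤ k * l := by nlinarith
        _ = ((k : ℝ) * l) ^ (1 : ℝ) := (Real.rpow_one _).symm
        _ ≤ _ := Real.rpow_le_rpow_of_exponent_le h2 hr.le
    have h3 : ((k : ℝ) * l) ^ r ≤ u / Real.pi * q * h := by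
      have h4 : (((k : ℝ) * l) ^ r / h) / q ≤ u / Real.pi := by
        refine le_trans ?_ hk
        have h5 : 0 ≤ (((k : ℝ) * l) ^ r / h) := by positivity
        gcongr
        nlinarith
      rw [div_le_iff₀ (by linarith), div_le_iff₀ (by linarith)] at h4
      exact h4
    have h6 : (k : ℝ) ≤ (⌈u / Real.pi * q * h⌉₊ : ℕ) := (h1.trans h3).trans (Nat.le_ceil _)
    exact_mod_cast h6
  refine ⟨hex, ?_⟩
  obtain ⟨B, hB⟩ := hex
  -- parameters
  set D : ℝ := μ * ((l : ℝ) ^ r / h) / q with hDdef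
  have hlr : 0 < (l : ℝ) ^ r := Real.rpow_pos_of_pos (by linarith) r
  have hD0 : 0 < D := by positivity
  set K : ℝ := (T * h / μ) ^ (1 / r) / l with hKdef
  have hK0 : 0 < K := by positivity
  have hDK : D * K ^ r = T / q := by
    rw [hDdef, hKdef, Real.div_rpow (by positivity) (by linarith), ← Real.rpow_mul (by positivity)]
    rw [one_div_mul_cancel (by linarith), Real.rpow_one]
    field_simp
  have hDk : ∀ k : ℕ, μ * (((k : ℝ) * l) ^ r / h) / q = D * (k : ℝ) ^ r := by
    intro k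
    rw [Real.mul_rpow (Nat.cast_nonneg k) (by linarith), hDdef]
    ring
  classical
  set P : ℕ → Prop := fun k => Z < ((k : ℝ) * l) ^ r ∧
    u / (4 * Real.pi) ≤ μ * (((k : ℝ) * l) ^ r / h) / q ∧
          μ * (((k : ℝ) * l) ^ r / h) / q ≤ u / Real.pi with hP
  set S : Finset ℕ := (range (B + 1)).filter P with hSdef
  have hmemS : ∀ k, k ∈ S ↔ P k := by
    intro k
    rw [hSdef, mem_filter, mem_range]
    constructor
    · exact fun h => h.2
    · intro h
      exact ⟨by have := hB k h.2.2; omega, h⟩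
  have hPpos : ∀ k, P k → 1 ≤ k := by
    intro k hk
    by_contra h0
    have h1 : k = 0 := by omega
    subst h1
    have h2 := hk.2.1
    rw [hDk] at h2
    simp only [Nat.cast_zero] at h2
    rw [Real.zero_rpow (by linarith), mul_zero] at h2
    have : 0 < u / (4 * Real.pi) := by
      have : 0 < u := by linarith
      positivity
    linarith
  have hSconv : ∀ x ∈ S, ∀ z ∈ S, ∀ y, x ≤ y → y ≤ z → y ∈ S := by
    intro x hx z hz y hxy hyz
    rw [hmemS] at hx hz ⊢
    have hxy' : (x : ℝ) ≤ y := by exact_mod_cast hxy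
    have hyz' : (y : ℝ) ≤ z := by exact_mod_cast hyz
    have hx0 : (0 : ℝ) ≤ x := Nat.cast_nonneg x
    have hy0 : (0 : ℝ) ≤ y := Nat.cast_nonneg y
    refine ⟨lt_of_lt_of_le hx.1 ?_, hx.2.1.trans ?_, le_trans ?_ hz.2.2⟩
    · exact Real.rpow_le_rpow (by positivity) (by gcongr) (by linarith)
    · have := Real.rpow_le_rpow (by positivity : (0 : ℝ) ≤ x * l) (by gcongr : (x : ℝ) * l ≤ y * l)
        (by linarith : (0 : ℝ) ≤ r)
      gcongr
    · have := Real.rpow_le_rpow (by positivity : (0 : ℝ) ≤ y * l) (by gcongr : (y : ℝ) * l ≤ z * l)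
        (by linarith : (0 : ℝ) ≤ r)
      gcongr
  have hSloc : ∀ k ∈ S, 1 ≤ k ∧ T / (4 * Real.pi) ≤ D * (k : ℝ) ^ r ∧
        D * (k : ℝ) ^ r ≤ 2 * T / Real.pi := by
    intro k hk
    rw [hmemS] at hk
    have h1 := hk.2.1
    have h2 := hk.2.2
    rw [hDk] at h1 h2
    refine ⟨hPpos k hk, le_trans ?_ h1, h2.trans ?_⟩
    · gcongr
    · gcongr
  have hkloc : ∀ k ∈ S, K / (4 * Real.pi) ≤ k := by
    intro k hk
    obtain ⟨h1, h2, h3⟩ := hSloc k hk
    have h1' : (1 : ℝ) ≤ k := by exact_mod_cast h1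
    exact (loc hq hr hT hK0 hDK (by linarith) h2 h3).1
  -- the sum is finite
  have htsum : (∑' k : ℕ, if Z < ((k : ℝ) * l) ^ r ∧ u / (4 * Real.pi) ≤
          μ * (((k : ℝ) * l) ^ r / h) / q ∧ μ * (((k : ℝ) * l) ^ r / h) / q ≤ u / Real.pi then
          (starRingEnd ℂ) (co ψ k) * (((k : ℝ) ^ (-(1 / 2 - r * η)) * V (k / M) *
            (((k : ℝ) * l) ^ r / h) ^ (1 - (1 / 2 - η)) : ℝ) : ℂ) *
            ei (2 * Real.pi * (μ / q) * (((k : ℝ) * l) ^ r / h) * Real.exp v)
          else 0) =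
      ∑ k ∈ S, ((((l : ℝ) ^ r / h) ^ (1 / 2 + η) * (k : ℝ) ^ ((r - 1) / 2 + 2 * r * η) : ℝ) : ℂ) *
        (((V ((k : ℝ) / M) : ℝ) : ℂ) * ((starRingEnd ℂ) (co ψ k) * ei ((0 : ℝ) * Real.log k +
        2 * Real.pi * (D * (k : ℝ) ^ r) * Real.exp v))) := by
    rw [tsum_eq_sum (s := S)]
    · refine sum_congr rfl fun k hk => ?_
      have hPk := (hmemS k).mp hk
      rw [if_pos hPk]
      have hk1 : (1 : ℝ) ≤ k := by exact_mod_cast hPpos k hPk
      have hk0 : (0 : ℝ) < k := by linarith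
      have e1 : (k : ℝ) ^ (-(1 / 2 - r * η)) * V (k / M) *
            (((k : ℝ) * l) ^ r / h) ^ (1 - (1 / 2 - η)) =
          (((l : ℝ) ^ r / h) ^ (1 / 2 + η) * (k : ℝ) ^ ((r - 1) / 2 + 2 * r * η)) *
            V ((k : ℝ) / M) := by
        have e2 : (((k : ℝ) * l) ^ r / h) ^ (1 - (1 / 2 - η)) =
            ((l : ℝ) ^ r / h) ^ (1 / 2 + η) * (k : ℝ) ^ (r * (1 / 2 + η)) := by
          rw [Real.mul_rpow hk0.le (by linarith), mul_div_assoc,
            Real.mul_rpow (by positivity) (by positivity), ← Real.rpow_mul hk0.le]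
          rw [show 1 - (1 / 2 - η) = 1 / 2 + η by ring]
          ring
        have e3 : (k : ℝ) ^ ((r - 1) / 2 + 2 * r * η) =
            (k : ℝ) ^ (-(1 / 2 - r * η)) * (k : ℝ) ^ (r * (1 / 2 + η)) := by
          rw [← Real.rpow_add hk0]
          congr 1
          ring
        rw [e2, e3]
        ring
      have e4 : 2 * Real.pi * (μ / q) * (((k : ℝ) * l) ^ r / h) * Real.exp v =
          (0 : ℝ) * Real.log k + 2 * Real.pi * (D * (k : ℝ) ^ r) * Real.exp v := by
        rw [← hDk]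
        ring
      rw [e1, e4]
      push_cast
      ring
    · intro k hk
      rw [hmemS] at hk
      exact if_neg hk
  rw [htsum]
  obtain ⟨hV0, hVanti, -⟩ := hVV
  have hη' : 0 ≤ (r - 1) / 2 + 2 * r * η := by
    have : 0 ≤ 2 * r * η := by positivity
    linarith
  set e₀ : ℝ := 1 / 2 - r * η with he₀
  have he1 : 0 ≤ e₀ := by
    rw [he₀]
    nlinarith
  have he2 : e₀ ≤ 1 := by
    have : 0 ≤ r * η := by positivity
    rw [he₀]
    linarith
  have hw := weights S (fun k => (starRingEnd ℂ) (co ψ k) * ei ((0 : ℝ) * Real.log k +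
        2 * Real.pi * (D * (k : ℝ) ^ r) * Real.exp v)) (fun y => V (y / M))
    (fun y => ((l : ℝ) ^ r / h) ^ (1 / 2 + η) * y ^ ((r - 1) / 2 + 2 * r * η)) 1
    ((2 * q) * (4 * Real.pi) * (T / μ) ^ (1 / 2 + η) * K ^ (-e₀))
    (C / Real.sqrt (r - 1) * (Real.sqrt T + K / Real.sqrt T))
    (by
      intro i hi j hj hij
      have hi1 : (1 : ℝ) ≤ i := by exact_mod_cast (hSloc i hi).1
      have hj1 : (1 : ℝ) ≤ j := by exact_mod_cast (hSloc j hj).1
      have hij' : (i : ℝ) ≤ j := by exact_mod_cast hij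
      apply hVanti
      · exact Set.mem_Ioi.mpr (by positivity)
      · exact Set.mem_Ioi.mpr (by positivity)
      · gcongr)
    (by
      intro i hi j hj hij
      have hij' : (i : ℝ) ≤ j := by exact_mod_cast hij
      have h1 := Real.rpow_le_rpow (Nat.cast_nonneg i) hij' hη'
      have h2 : 0 ≤ ((l : ℝ) ^ r / h) ^ (1 / 2 + η) := by positivity
      exact mul_le_mul_of_nonneg_left h1 h2)
    (by
      intro i hi
      have hi1 : (1 : ℝ) ≤ i := by exact_mod_cast (hSloc i hi).1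
      exact hV0 _ (by positivity))
    (by
      intro i hi
      obtain ⟨h1, h2, h3⟩ := hSloc i hi
      have hi1 : (1 : ℝ) ≤ i := by exact_mod_cast h1
      have hi0 : (0 : ℝ) < i := by linarith
      refine ⟨by positivity, ?_⟩
      have e1 : ((l : ℝ) ^ r / h) ^ (1 / 2 + η) * (i : ℝ) ^ ((r - 1) / 2 + 2 * r * η) =
          (i : ℝ) ^ (-e₀) * (q / μ * (D * (i : ℝ) ^ r)) ^ (1 / 2 + η) := by
        have e2 : q / μ * (D * (i : ℝ) ^ r) = ((l : ℝ) ^ r / h) * (i : ℝ) ^ r := by
          rw [hDdef]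
          field_simp
        rw [e2, Real.mul_rpow (by positivity) (by positivity), ← Real.rpow_mul hi0.le]
        have e3 : (i : ℝ) ^ ((r - 1) / 2 + 2 * r * η) =
            (i : ℝ) ^ (-e₀) * (i : ℝ) ^ (r * (1 / 2 + η)) := by
          rw [← Real.rpow_add hi0]
          congr 1
          rw [he₀]
          ring
        rw [e3]
        ring
      rw [e1]
      have h4 : (i : ℝ) ^ (-e₀) ≤ 4 * Real.pi * K ^ (-e₀) := by
        rw [Real.rpow_neg hi0.le, Real.rpow_neg hK0.le]
        have h5 : (K / (4 * Real.pi)) ^ e₀ ≤ (i : ℝ) ^ e₀ :=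
          Real.rpow_le_rpow (by positivity) (hkloc i hi) he1
        have h6 : K ^ e₀ ≤ 4 * Real.pi * (K / (4 * Real.pi)) ^ e₀ := by
          rw [Real.div_rpow hK0.le (by positivity)]
          have h7 : (4 * Real.pi) ^ e₀ ≤ 4 * Real.pi := by
            calc (4 * Real.pi) ^ e₀ ≤ (4 * Real.pi) ^ (1 : ℝ) :=
                  Real.rpow_le_rpow_of_exponent_le (by linarith) he2
              _ = _ := Real.rpow_one _
          have h8 : 0 < (4 * Real.pi) ^ e₀ := by positivity
          rw [← mul_div_assoc, le_div_iff₀ h8]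
          have h9 : 0 ≤ K ^ e₀ := by positivity
          nlinarith
        have hKe : 0 < K ^ e₀ := by positivity
        have hie : 0 < (i : ℝ) ^ e₀ := by positivity
        rw [← div_eq_mul_inv, ← one_div, div_le_div_iff₀ hie hKe]
        nlinarith
      have h5 : (q / μ * (D * (i : ℝ) ^ r)) ^ (1 / 2 + η) ≤ 2 * q * (T / μ) ^ (1 / 2 + η) := by
        have h6 : q / μ * (D * (i : ℝ) ^ r) ≤ (2 * q) * (T / μ) := by
          calc q / μ * (D * (i : ℝ) ^ r) ≤ q / μ * (2 * T / Real.pi) := by gcongr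
            _ ≤ q / μ * (2 * T) := by
                gcongr
                exact div_le_self (by positivity) (by linarith)
            _ = _ := by ring
        calc _ ≤ ((2 * q) * (T / μ)) ^ (1 / 2 + η) :=
              Real.rpow_le_rpow (by positivity) h6 (by linarith)
          _ = (2 * q : ℝ) ^ (1 / 2 + η) * (T / μ) ^ (1 / 2 + η) :=
              Real.mul_rpow (by positivity) (by positivity)
          _ ≤ (2 * q : ℝ) ^ (1 : ℝ) * (T / μ) ^ (1 / 2 + η) := by
              gcongr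
              · linarith
              · linarith
          _ = _ := by rw [Real.rpow_one]
      calc _ ≤ (4 * Real.pi * K ^ (-e₀)) * (2 * q * (T / μ) ^ (1 / 2 + η)) := by gcongr
        _ = _ := by ring)
    (by norm_num) (by positivity) (by positivity)
    (by
      intro c
      apply hcl r hr hr2 T D K 0 v hT hD0 hK0 hDK (by rw [abs_zero]; positivity) hv
      · intro x hx z hz y hxy hyz
        rw [mem_filter] at hx hz ⊢
        refine ⟨hSconv x hx.1 z hz.1 y hxy hyz, le_trans ?_ hz.2⟩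
        exact_mod_cast hyz
      · intro k hk
        exact hSloc k (mem_filter.mp hk).1)
  refine hw.trans_eq ?_
  ring

end Pool.Agent.H32.RU
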